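import Pool.Agent.helper12.RS.Ser

/-!
# Functions holomorphic on a closed disc, maximum principle
-/

namespace Pool.Agent.helper4.EQR

open Complex Metric Set Filter Topology
open Pool.Agent.helper12.RS (E1F LmF mul_E1F mul_LmF)

/-- differentiable at every point of the closed disc -/
def Hol (c : ℂ) (R : ℝ) (f : ℂ → ℂ) : Prop := ∀ z ∈ closedBall c R, DifferentiableAt ℂ f z

variable {c : ℂ} {R : ℝ} {f g : ℂ → ℂ}

theorem Hol.congr (hf : Hol c R f) (h : ∀ z, g z = f z) : Hol c R g := by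
  have : g = f := funext h
  rw [this]
  exact hf

theorem hol_const (a : ℂ) : Hol c R (fun _ => a) := fun _ _ => differentiableAt_const a

theorem hol_id : Hol c R (fun z => z) := fun _ _ => differentiableAt_id

theorem Hol.add (hf : Hol c R f) (hg : Hol c R g) : Hol c R (fun z => f z + g z) :=
  fun z hz => (hf z hz).add (hg z hz)

theorem Hol.sub (hf : Hol c R f) (hg : Hol c R g) : Hol c R (fun z => f z - g z) :=
  fun z hz => (hf z hz).sub (hg z hz)

theorem Hol.mul (hf : Hol c R f) (hg : Hol c R g) : Hol c R (fun z => f z * g z) :=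
  fun z hz => (hf z hz).mul (hg z hz)

theorem Hol.neg (hf : Hol c R f) : Hol c R (fun z => -f z) := fun z hz => (hf z hz).neg

theorem Hol.pow (hf : Hol c R f) (n : ℕ) : Hol c R (fun z => f z ^ n) :=
  fun z hz => (hf z hz).pow n

theorem Hol.inv (hf : Hol c R f) (h : ∀ z ∈ closedBall c R, f z ≠ 0) :
    Hol c R (fun z => (f z)⁻¹) := fun z hz => (hf z hz).inv (h z hz)

theorem Hol.div (hf : Hol c R f) (hg : Hol c R g) (h : ∀ z ∈ closedBall c R, g z ≠ 0) :
    Hol c R (fun z => f z / g z) := fun z hz => (hf z hz).div (hg z hz) (h z hz)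

theorem Hol.cexp (hf : Hol c R f) : Hol c R (fun z => exp (f z)) := fun z hz => (hf z hz).cexp

theorem Hol.clog (hf : Hol c R f) (h : ∀ z ∈ closedBall c R, f z ∈ slitPlane) :
    Hol c R (fun z => log (f z)) := fun z hz => (hf z hz).clog (h z hz)

theorem Hol.cpow_const (hf : Hol c R f) (h : ∀ z ∈ closedBall c R, f z ∈ slitPlane) (a : ℂ) :
    Hol c R (fun z => f z ^ a) := fun z hz => (hf z hz).cpow_const (h z hz)

theorem Hol.comp {F : ℂ → ℂ} (hf : Hol c R f)
    (hF : ∀ z ∈ closedBall c R, DifferentiableAt ℂ F (f z)) : Hol c R (fun z => F (f z)) :=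
  fun z hz => DifferentiableAt.comp (g := F) z (hF z hz) (hf z hz)

/-! ### `E1F`, `LmF` -/

theorem E1F_eq_dslope (z : ℂ) : E1F z = dslope exp 0 z := by
  unfold E1F
  split_ifs with h
  · rw [h, dslope_same, Complex.deriv_exp, exp_zero]
  · rw [dslope_of_ne _ h, slope_def_field, exp_zero, sub_zero]

theorem differentiable_E1F : Differentiable ℂ E1F := by
  have h : E1F = dslope exp 0 := funext E1F_eq_dslope
  rw [h, ← differentiableOn_univ, Complex.differentiableOn_dslope univ_mem]
  exact Complex.differentiable_exp.differentiableOn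

theorem LmF_eq_dslope (z : ℂ) : LmF z = dslope (fun w => log (1 + w)) 0 z := by
  unfold LmF
  split_ifs with h
  · have h1 : HasDerivAt (fun w : ℂ => log (1 + w)) 1 0 := by
      have h2 : HasDerivAt (fun w : ℂ => 1 + w) 1 0 := by
        simpa using (hasDerivAt_id (0 : ℂ)).const_add 1
      have h3 := h2.clog (by simp)
      simpa using h3
    rw [h, dslope_same, h1.deriv]
  · rw [dslope_of_ne _ h, slope_def_field, add_zero, log_one, sub_zero, sub_zero]

theorem differentiableAt_LmF {z : ℂ} (h : ‖z‖ < 1) : DifferentiableAt ℂ LmF z := by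
  have h0 : (0 : ℂ) ∈ ball (0 : ℂ) 1 := by simp
  have h1 : DifferentiableOn ℂ (fun w : ℂ => log (1 + w)) (ball (0 : ℂ) 1) := by
    intro w hw
    have hw' : ‖w‖ < 1 := by simpa using hw
    have h2 : 1 + w ∈ slitPlane := by
      rw [Complex.mem_slitPlane_iff]
      left
      rw [add_re, one_re]
      have := (abs_lt.1 ((Complex.abs_re_le_norm _).trans_lt hw')).1
      linarith
    have h3 : DifferentiableAt ℂ (fun w : ℂ => 1 + w) w := differentiableAt_id.const_add 1
    exact (h3.clog h2).differentiableWithinAt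
  have h2 := (Complex.differentiableOn_dslope (isOpen_ball.mem_nhds h0)).2 h1
  have h3 : LmF = dslope (fun w => log (1 + w)) 0 := funext LmF_eq_dslope
  rw [h3]
  exact h2.differentiableAt (isOpen_ball.mem_nhds (by simpa using h))

theorem Hol.E1F (hf : Hol c R f) : Hol c R (fun z => E1F (f z)) :=
  hf.comp fun z _ => differentiable_E1F (f z)

theorem Hol.LmF (hf : Hol c R f) (h : ∀ z ∈ closedBall c R, ‖f z‖ < 1) :
    Hol c R (fun z => LmF (f z)) := hf.comp fun z hz => differentiableAt_LmF (h z hz)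

/-! ### maximum principle -/

theorem Hol.diffContOnCl (hf : Hol c R f) (hR : R ≠ 0) : DiffContOnCl ℂ f (ball c R) := by
  refine ⟨fun z hz => (hf z (ball_subset_closedBall hz)).differentiableWithinAt, ?_⟩
  rw [closure_ball c hR]
  exact fun z hz => (hf z hz).continuousAt.continuousWithinAt

theorem Hol.norm_le (hf : Hol c R f) {M : ℝ} (h : ∀ z ∈ sphere c R, ‖f z‖ ≤ M) :
    ∀ z ∈ closedBall c R, ‖f z‖ ≤ M := by
  intro z hz
  rcases eq_or_ne R 0 with hR | hR
  · subst hR
    rw [closedBall_zero] at hz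
    exact h z (by rw [sphere_zero]; exact hz)
  · have h1 : ∀ w ∈ frontier (ball c R), ‖f w‖ ≤ M := by
      rw [frontier_ball c hR]
      exact h
    have h2 : z ∈ closure (ball c R) := by
      rw [closure_ball c hR]
      exact hz
    exact Complex.norm_le_of_forall_mem_frontier_norm_le isBounded_ball (hf.diffContOnCl hR) h1 h2

theorem Hol.norm_lt (hf : Hol c R f) {M : ℝ} (h : ∀ z ∈ sphere c R, ‖f z‖ < M) :
    ∀ z ∈ closedBall c R, ‖f z‖ < M := by
  intro z hz
  have hR : 0 ≤ R := dist_nonneg.trans (mem_closedBall.1 hz)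
  have hc : ContinuousOn (fun w => ‖f w‖) (sphere c R) := fun w hw =>
    (hf w (sphere_subset_closedBall hw)).continuousAt.norm.continuousWithinAt
  obtain ⟨w, hw, hmax⟩ := (isCompact_sphere c R).exists_isMaxOn
    ((NormedSpace.sphere_nonempty).2 hR) hc
  exact (hf.norm_le (fun v hv => hmax hv) z hz).trans_lt (h w hw)

theorem Hol.re_pos (hf : Hol c R f) (h : ∀ z ∈ sphere c R, 0 < (f z).re) :
    ∀ z ∈ closedBall c R, 0 < (f z).re := by
  intro z hz
  have h1 := hf.neg.cexp.norm_lt (M := 1) (fun w hw => by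
    rw [Complex.norm_exp, neg_re, Real.exp_lt_one_iff]
    linarith [h w hw]) z hz
  rw [Complex.norm_exp, neg_re, Real.exp_lt_one_iff] at h1
  linarith

theorem Hol.re_lt (hf : Hol c R f) {M : ℝ} (h : ∀ z ∈ sphere c R, (f z).re < M) :
    ∀ z ∈ closedBall c R, (f z).re < M := by
  intro z hz
  have h1 := ((hol_const (M : ℂ)).sub hf).re_pos (fun w hw => by
    rw [sub_re, ofReal_re]
    linarith [h w hw]) z hz
  rw [sub_re, ofReal_re] at h1
  linarith

/-- the maximum principle for a quotient: `‖f‖ < t ‖g‖`, `g ≠ 0` in the disc -/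
theorem Hol.norm_lt_mul (hf : Hol c R f) (hg : Hol c R g) (h0 : ∀ z ∈ closedBall c R, g z ≠ 0)
    {t : ℝ} (h : ∀ z ∈ sphere c R, ‖f z‖ < t * ‖g z‖) :
    ∀ z ∈ closedBall c R, ‖f z‖ < t * ‖g z‖ := by
  intro z hz
  have h1 := (hf.div hg h0).norm_lt (M := t) (fun w hw => by
    rw [norm_div, div_lt_iff₀ (norm_pos_iff.2 (h0 w (sphere_subset_closedBall hw)))]
    exact h w hw) z hz
  rw [norm_div, div_lt_iff₀ (norm_pos_iff.2 (h0 z hz))] at h1
  exact h1

theorem Hol.norm_le_mul (hf : Hol c R f) (hg : Hol c R g) (h0 : ∀ z ∈ closedBall c R, g z ≠ 0)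
    {t : ℝ} (h : ∀ z ∈ sphere c R, ‖f z‖ ≤ t * ‖g z‖) :
    ∀ z ∈ closedBall c R, ‖f z‖ ≤ t * ‖g z‖ := by
  intro z hz
  have h1 := (hf.div hg h0).norm_le (M := t) (fun w hw => by
    rw [norm_div, div_le_iff₀ (norm_pos_iff.2 (h0 w (sphere_subset_closedBall hw)))]
    exact h w hw) z hz
  rw [norm_div, div_le_iff₀ (norm_pos_iff.2 (h0 z hz))] at h1
  exact h1

/-- `‖w‖ < θ` for all `w` in the disc `‖w - A‖ ≤ ‖G‖`: it suffices on the circle.
(for a fixed `u` with `‖u‖ ≤ 1` the function `A + G u` is holomorphic) -/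
theorem Hol.disc_lt {A G : ℂ → ℂ} (hA : Hol c R A) (hG : Hol c R G) {t : ℝ}
    (h : ∀ z ∈ sphere c R, ∀ w : ℂ, ‖w - A z‖ ≤ ‖G z‖ → ‖w‖ < t) :
    ∀ z ∈ closedBall c R, ∀ w : ℂ, ‖w - A z‖ ≤ ‖G z‖ → ‖w‖ < t := by
  intro z hz w hw
  have key : ∀ u : ℂ, ‖u‖ ≤ 1 → ‖A z + G z * u‖ < t := by
    intro u hu
    refine (hA.add (hG.mul (hol_const u))).norm_lt (M := t) (fun v hv => ?_) z hz
    refine h v hv _ ?_
    rw [add_sub_cancel_left, norm_mul]
    exact mul_le_of_le_one_right (norm_nonneg _) hu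
  rcases eq_or_ne (G z) 0 with h0 | h0
  · rw [h0, norm_zero] at hw
    have h1 : w = A z := sub_eq_zero.1 (norm_le_zero_iff.1 hw)
    have := key 0 (by simp)
    rw [mul_zero, add_zero, ← h1] at this
    exact this
  · have := key ((w - A z) / G z) (by
      rw [norm_div, div_le_one (norm_pos_iff.2 h0)]
      exact hw)
    rw [mul_div_cancel₀ _ h0, add_sub_cancel] at this
    exact this

end Pool.Agent.helper4.EQR
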